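import Pool.Agent.H566Y.Spec
import Pool.Agent.H565R2.FO2.USec
set_option autoImplicit false

namespace Pool.Agent.H566Y

open Set Pool.Agent.H566X

theorem cd_cont {a : ℕ → ℕ} {C : Type} : Continuous (Dg : XC a C → _) := by
  refine continuous_pi fun p => ?_
  rcases p with ⟨c, c'⟩ | ⟨i, t⟩
  · have h1 : Continuous (fun x : XC a C => (x.2 c, x.2 c')) := by fun_prop
    have h2 : Continuous (fun q : ℕ × ℕ => decide (q.1 = q.2)) := continuous_of_discreteTopology
    exact h2.comp h1
  · have h1 : Continuous (fun x : XC a C => (x.1 i, fun k => x.2 (t k))) := by fun_prop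
    have h2 : Continuous (fun q : ((Fin (a i) → ℕ) → Bool) × (Fin (a i) → ℕ) => q.1 q.2) := by
      rw [continuous_prod_of_discrete_right]
      intro s
      exact continuous_apply s
    exact h2.comp h1

theorem cd_inv {a : ℕ → ℕ} {C : Type} (x y : XC a C) (h : ∃ e, IsoC x y e) : Dg x = Dg y := by
  obtain ⟨e, h1, h2⟩ := h
  funext p
  rcases p with ⟨c, c'⟩ | ⟨i, t⟩
  · simp only [Dg, Sum.elim_inl]
    rw [← h2, ← h2]
    simp
  · simp only [Dg, Sum.elim_inr]
    rw [← h1 i]
    exact congrArg (y.1 i) (funext fun k => h2 (t k))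

theorem t_CD : S_CD := by
  intro a C _ B hB few
  by_contra hunc
  have : StandardBorelSpace B := hB.standardBorel
  obtain ⟨h, hcont, hh⟩ := Pool.Agent.H565R2.FO2.perfect_of_uncountable (Y := B) (X := XC a C)
    (ι := Unit) (fun y => y.1) measurable_subtype_coe (fun _ y => Dg y.1)
    (fun _ => cd_cont.measurable.comp measurable_subtype_coe) (fun x y => ∃ e, IsoC x.1 y.1 e)
    (fun x y hxy _ => ⟨(), cd_inv _ _ hxy⟩) (by
      intro hc
      apply hunc
      refine hc.mono ?_
      rintro _ ⟨x, hx, rfl⟩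
      exact mem_iUnion.2 ⟨(), ⟨x, hx⟩, rfl⟩)
  apply few
  refine ⟨fun x => (h x).1, hcont, fun x => (h x).2, fun x y hxy => ?_⟩
  by_contra hne
  exact hh x y hne hxy

end Pool.Agent.H566Y
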