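import Pool.Agent.H566Y.Spec

/-! Task CONV: from `F_σ` classes of `L`-structures to codes with constants and back. -/

set_option autoImplicit false

namespace Pool.Agent.H566Y

open Set Pool.Agent.H566X FirstOrder FirstOrder.Language

section conv

variable {L : FirstOrder.Language.{0, 0}} {a : ℕ → ℕ} (enc : (Σ n, L.Relations n) → ℕ)
  (ha : ∀ r, a (enc r) = r.1) (hE : ∀ n, IsEmpty (L.Functions (n + 1)))

/-- the `L`-structure of a code -/
def conv_of (x : XC a (L.Functions 0)) : L.Structure ℕ where
  funMap := fun {n} => match n with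
    | 0 => fun f _ => x.2 f
    | n + 1 => fun f _ => ((hE n).false f).elim
  RelMap := fun {n} R v => x.1 (enc ⟨n, R⟩) (fun k => v (Fin.cast (ha ⟨n, R⟩) k)) = true

open Classical in
/-- the code of an `L`-structure -/
noncomputable def conv_to (a : ℕ → ℕ) (S : L.Structure ℕ) : XC a (L.Functions 0) :=
  (fun i t => decide (∃ r : (Σ n, L.Relations n), enc r = i ∧ ∃ h : r.1 = a i,
    S.RelMap r.2 (fun k => t (Fin.cast h k))), fun c => S.funMap c (fun k => k.elim0))

/-- codes which are false at the superfluous symbols -/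
def conv_G (a : ℕ → ℕ) : Set (XC a (L.Functions 0)) :=
  {x | ∀ i, (∀ r, enc r ≠ i) → ∀ t, x.1 i t = false}

open Classical in
theorem conv_of_to (henc : Function.Injective enc) (S : L.Structure ℕ) :
    conv_of enc ha hE (conv_to enc a S) = S := by
  apply Structure.ext
  · funext n f v
    cases n with
    | zero =>
      show S.funMap f (fun k => k.elim0) = S.funMap f v
      congr 1
      funext k
      exact k.elim0
    | succ n => exact ((hE n).false f).elim
  · funext n R v
    show (decide _ = true) = S.RelMap R v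
    rw [decide_eq_true_eq]
    apply propext
    constructor
    · rintro ⟨r, hr, h, h2⟩
      have : r = ⟨n, R⟩ := henc hr
      subst this
      exact h2
    · intro h
      exact ⟨⟨n, R⟩, rfl, (ha _).symm, h⟩

open Classical in
theorem conv_to_G (S : L.Structure ℕ) : conv_to enc a S ∈ conv_G enc a := by
  intro i hi t
  show decide _ = false
  rw [decide_eq_false_iff_not]
  rintro ⟨r, hr, -⟩
  exact hi r hr

/-- isomorphic codes give isomorphic structures -/
theorem conv_iso_equiv {x y : XC a (L.Functions 0)} {e : ℕ ≃ ℕ} (h : IsoC x y e) :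
    Nonempty (@FirstOrder.Language.Equiv L ℕ ℕ (conv_of enc ha hE x) (conv_of enc ha hE y)) := by
  refine ⟨@FirstOrder.Language.Equiv.mk L ℕ ℕ (conv_of enc ha hE x) (conv_of enc ha hE y) e ?_ ?_⟩
  · intro n f v
    cases n with
    | zero => exact h.2 f
    | succ n => exact ((hE n).false f).elim
  · intro n R v
    show (y.1 (enc ⟨n, R⟩) (fun k => (e ∘ v) (Fin.cast (ha ⟨n, R⟩) k)) = true) ↔
      (x.1 (enc ⟨n, R⟩) (fun k => v (Fin.cast (ha ⟨n, R⟩) k)) = true)
    have := h.1 (enc ⟨n, R⟩) (fun k => v (Fin.cast (ha ⟨n, R⟩) k))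
    rw [← this]
    rfl

/-- isomorphic structures have isomorphic codes -/
theorem conv_equiv_iso {x y : XC a (L.Functions 0)} (hx : x ∈ conv_G enc a)
    (hy : y ∈ conv_G enc a)
    (h : Nonempty (@FirstOrder.Language.Equiv L ℕ ℕ (conv_of enc ha hE x)
      (conv_of enc ha hE y))) : ∃ e, IsoC x y e := by
  obtain ⟨E⟩ := h
  refine ⟨@FirstOrder.Language.Equiv.toEquiv L ℕ ℕ (conv_of enc ha hE x)
    (conv_of enc ha hE y) E, ?_, ?_⟩
  · intro i t
    by_cases hi : ∃ r, enc r = i
    · obtain ⟨r, rfl⟩ := hi
      obtain ⟨n, R⟩ := r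
      have h1 := @FirstOrder.Language.Equiv.map_rel' L ℕ ℕ (conv_of enc ha hE x)
        (conv_of enc ha hE y) E n R (fun k => t (Fin.cast (ha ⟨n, R⟩).symm k))
      have h2 : (y.1 (enc ⟨n, R⟩) (@FirstOrder.Language.Equiv.toEquiv L ℕ ℕ (conv_of enc ha hE x)
          (conv_of enc ha hE y) E ∘ t) = true) ↔ (x.1 (enc ⟨n, R⟩) t = true) := h1
      exact Bool.eq_iff_iff.2 h2
    · rw [hx i (fun r hr => hi ⟨r, hr⟩), hy i (fun r hr => hi ⟨r, hr⟩)]
  · intro c
    exact @FirstOrder.Language.Equiv.map_fun' L ℕ ℕ (conv_of enc ha hE x)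
        (conv_of enc ha hE y) E 0 c (fun k => k.elim0)

theorem conv_cont : @Continuous _ _ _ (codeTop L) (conv_of (a := a) enc ha hE) := by
  rw [codeTop, continuous_generateFrom_iff]
  have hR : ∀ (n : ℕ) (R : L.Relations n) (t : Fin n → ℕ), Continuous
      (fun x : XC a (L.Functions 0) => x.1 (enc ⟨n, R⟩) (fun k => t (Fin.cast (ha ⟨n, R⟩) k))) :=
    fun n R t => (continuous_apply _).comp ((continuous_apply _).comp continuous_fst)
  rintro U ((⟨n, R, t, rfl⟩ | ⟨n, R, t, rfl⟩) | ⟨n, f, t, b, rfl⟩)
  · exact (isOpen_discrete ({true} : Set Bool)).preimage (hR n R t)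
  · exact (isOpen_discrete ({true}ᶜ : Set Bool)).preimage (hR n R t)
  · cases n with
    | zero =>
      have : Continuous (fun x : XC a (L.Functions 0) => x.2 f) :=
        (continuous_apply _).comp continuous_snd
      exact (isOpen_discrete ({b} : Set ℕ)).preimage this
    | succ n => exact ((hE n).false f).elim

theorem conv_G_closed : IsClosed (conv_G (L := L) enc a) := by
  have : conv_G (L := L) enc a = ⋂ (i : ℕ) (_ : ∀ r, enc r ≠ i) (t : Fin (a i) → ℕ),
      {x : XC a (L.Functions 0) | x.1 i t = false} := by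
    ext x
    simp only [conv_G, mem_setOf_eq, mem_iInter]
  rw [this]
  refine isClosed_iInter fun i => isClosed_iInter fun _ => isClosed_iInter fun t => ?_
  have hc : Continuous (fun x : XC a (L.Functions 0) => x.1 i t) :=
    (continuous_apply _).comp ((continuous_apply _).comp continuous_fst)
  exact (isClosed_discrete ({false} : Set Bool)).preimage hc

end conv

theorem t_CONV : S_CONV := by
  classical
  intro hSEM L hL hE B hB hinv
  obtain ⟨F, hF, hBF⟩ := hB
  have hc1 : Countable (Σ n, L.Relations n) :=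
    Function.Injective.countable (f := fun r : (Σ n, L.Relations n) => (Sum.inr r : L.Symbols))
      Sum.inr_injective
  have hc2 : Countable (L.Functions 0) :=
    Function.Injective.countable
      (f := fun c : L.Functions 0 => (Sum.inl ⟨0, c⟩ : L.Symbols)) (by
        intro c c' h
        have h1 := Sum.inl_injective h
        simpa using h1)
  obtain ⟨enc, henc⟩ := exists_injective_nat (Σ n, L.Relations n)
  obtain ⟨a, ha⟩ : ∃ a : ℕ → ℕ, ∀ r, a (enc r) = r.1 := by
    refine ⟨fun i => if h : ∃ r, enc r = i then (Classical.choose h).1 else 0, fun r => ?_⟩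
    have h : ∃ r', enc r' = enc r := ⟨r, rfl⟩
    show (if h : ∃ r', enc r' = enc r then (Classical.choose h).1 else 0) = r.1
    rw [dif_pos h]
    have := henc (Classical.choose_spec h)
    rw [this]
  set of : XC a (L.Functions 0) → L.Structure ℕ := conv_of enc ha hE with hof
  have hcont : @Continuous _ _ _ (codeTop L) of := conv_cont enc ha hE
  set B' : Set (XC a (L.Functions 0)) := conv_G enc a ∩ of ⁻¹' B with hB'
  have hFc : ∀ k, IsClosed (conv_G enc a ∩ of ⁻¹' (F k)) := by
    intro k
    exact (conv_G_closed enc).inter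
      (@IsClosed.preimage _ _ _ (codeTop L) of hcont (F k) (hF k))
  have hBu : B' = ⋃ k, conv_G enc a ∩ of ⁻¹' (F k) := by
    rw [hB', hBF, preimage_iUnion, inter_iUnion]
  have hI : InvC B' := by
    rintro x ⟨hxG, hxB⟩ y ⟨e, he⟩
    refine ⟨?_, hinv _ hxB _ (conv_iso_equiv enc ha hE he)⟩
    intro i hi t
    have h1 := he.1 i (e.symm ∘ t)
    rw [hxG i hi] at h1
    rw [← h1]
    have h2 : t = e ∘ e.symm ∘ t := by
      funext k
      simp
    exact congrArg (y.1 i) h2
  have hto : ∀ S ∈ B, conv_to enc a S ∈ B' := by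
    intro S hS
    refine ⟨conv_to_G enc S, ?_⟩
    show of (conv_to enc a S) ∈ B
    rw [hof, conv_of_to enc ha hE henc]
    exact hS
  by_cases hfew : FewC B'
  · left
    obtain ⟨D, hD, hD2⟩ := hSEM a (L.Functions 0) B' _ hFc hBu hI hfew
    rcases D.eq_empty_or_nonempty with hDe | hDn
    · refine ⟨fun _ => of (fun _ _ => false, fun _ => 0), fun S hS => ?_⟩
      obtain ⟨y, hy, -⟩ := hD2 _ (hto S hS)
      rw [hDe] at hy
      exact hy.elim
    · obtain ⟨f, hf⟩ := hD.exists_eq_range hDn
      refine ⟨fun n => of (f n), fun S hS => ?_⟩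
      obtain ⟨y, hy, e, he⟩ := hD2 _ (hto S hS)
      rw [hf] at hy
      obtain ⟨n, rfl⟩ := hy
      refine ⟨n, ?_⟩
      have h1 := conv_iso_equiv enc ha hE he
      rw [conv_of_to enc ha hE henc] at h1
      exact h1
  · right
    rw [FewC, not_not] at hfew
    obtain ⟨g, hg, hgB, hgi⟩ := hfew
    refine ⟨fun x => of (g x), fun x => (hgB x).2, ?_, ?_, ?_⟩
    · intro x y hxy
      exact hgi x y (conv_equiv_iso enc ha hE (hgB x).1 (hgB y).1 hxy)
    · intro n R t
      have hR : Continuous (fun x => (g x).1 (enc ⟨n, R⟩)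
          (fun k => t (Fin.cast (ha ⟨n, R⟩) k))) :=
        (continuous_apply _).comp ((continuous_apply _).comp (continuous_fst.comp hg))
      exact (isClopen_discrete ({true} : Set Bool)).preimage hR
    · intro n f t b
      cases n with
      | zero =>
        have : Continuous (fun x => (g x).2 f) :=
          (continuous_apply _).comp (continuous_snd.comp hg)
        exact (isOpen_discrete ({b} : Set ℕ)).preimage this
      | succ n => exact ((hE n).false f).elim

end Pool.Agent.H566Y
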