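import Pool.Agent.H566Y.Spec
import Pool.Agent.H565R2.FO2.USec

/-! FK: members with exactly `k` elements which are not constants. -/

set_option autoImplicit false

namespace Pool.Agent.H566Y

open Set Pool.Agent.H566X

section

variable {a : ℕ → ℕ} {C : Type} {k : ℕ}

/-- `h` enumerates the elements which are not constants -/
def fkGood (x : XC a C) (h : Fin k → ℕ) : Prop := Function.Injective h ∧ range h = rest x

open Classical in
/-- the code of `x` and `h` -/
noncomputable def fkCode (x : XC a C) (h : Fin k → ℕ) :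
    ((C × C) ⊕ (Σ i : ℕ, (Fin (a i) → C ⊕ Fin k))) → Bool :=
  Sum.elim (fun p => decide (x.2 p.1 = x.2 p.2)) (fun p => x.1 p.1 (fun j => Sum.elim x.2 h (p.2 j)))

open Classical in
/-- the code with a flag -/
noncomputable def fkJ (h : Fin k → ℕ) (x : XC a C) :
    Option ((C × C) ⊕ (Σ i : ℕ, (Fin (a i) → C ⊕ Fin k))) → Bool :=
  fun o => decide (fkGood x h) && o.elim true (fkCode x h)

lemma fk_mem_rest (x : XC a C) (n : ℕ) : n ∈ rest x ↔ ∀ c, x.2 c ≠ n := by
  unfold rest
  rw [mem_compl_iff, mem_range]
  push Not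
  rfl

lemma fk_meas_good [Countable C] (h : Fin k → ℕ) : MeasurableSet {x : XC a C | fkGood x h} := by
  have h1 : {x : XC a C | fkGood x h} =
      {x : XC a C | Function.Injective h} ∩ ⋂ n : ℕ, {x : XC a C | n ∈ range h ↔ n ∈ rest x} := by
    ext x
    rw [mem_inter_iff, mem_iInter]
    constructor
    · rintro ⟨h2, h3⟩
      refine ⟨h2, fun n => ?_⟩
      show n ∈ range h ↔ n ∈ rest x
      rw [h3]
    · rintro ⟨h2, h3⟩
      exact ⟨h2, Set.ext h3⟩
  rw [h1]
  refine MeasurableSet.inter (MeasurableSet.const _) (MeasurableSet.iInter fun n => ?_)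
  have h2 : MeasurableSet {x : XC a C | n ∈ rest x} := by
    have h3 : {x : XC a C | n ∈ rest x} = ⋂ c : C, {x : XC a C | x.2 c ≠ n} := by
      ext x
      rw [mem_iInter]
      exact fk_mem_rest x n
    rw [h3]
    refine MeasurableSet.iInter fun c => ?_
    have h4 : Measurable (fun x : XC a C => x.2 c) := by fun_prop
    exact (h4 (measurableSet_singleton n)).compl
  by_cases hn : n ∈ range h
  · have : {x : XC a C | n ∈ range h ↔ n ∈ rest x} = {x : XC a C | n ∈ rest x} := by
      ext x
      show (n ∈ range h ↔ n ∈ rest x) ↔ n ∈ rest x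
      tauto
    rw [this]
    exact h2
  · have : {x : XC a C | n ∈ range h ↔ n ∈ rest x} = {x : XC a C | n ∈ rest x}ᶜ := by
      ext x
      show (n ∈ range h ↔ n ∈ rest x) ↔ ¬ n ∈ rest x
      tauto
    rw [this]
    exact h2.compl

lemma fk_meas_code (h : Fin k → ℕ)
    (o : (C × C) ⊕ (Σ i : ℕ, (Fin (a i) → C ⊕ Fin k))) :
    MeasurableSet {x : XC a C | fkCode x h o = true} := by
  rcases o with p | ⟨i, t⟩
  · have h1 : {x : XC a C | fkCode x h (Sum.inl p) = true} =
        {x : XC a C | x.2 p.1 = x.2 p.2} := by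
      ext x
      show decide (x.2 p.1 = x.2 p.2) = true ↔ x.2 p.1 = x.2 p.2
      rw [decide_eq_true_eq]
    rw [h1]
    refine measurableSet_eq_fun ?_ ?_
    · fun_prop
    · fun_prop
  · have h1 : {x : XC a C | fkCode x h (Sum.inr ⟨i, t⟩) = true} =
        ⋃ w : Fin (a i) → ℕ, (⋂ j, {x : XC a C | Sum.elim x.2 h (t j) = w j}) ∩
          {x : XC a C | x.1 i w = true} := by
      ext x
      rw [mem_iUnion]
      constructor
      · intro hx
        refine ⟨fun j => Sum.elim x.2 h (t j), ?_, hx⟩
        rw [mem_iInter]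
        intro j
        rfl
      · rintro ⟨w, h2, h3⟩
        rw [mem_iInter] at h2
        have h4 : (fun j => Sum.elim x.2 h (t j)) = w := funext fun j => h2 j
        show x.1 i (fun j => Sum.elim x.2 h (t j)) = true
        rw [h4]
        exact h3
    rw [h1]
    refine MeasurableSet.iUnion fun w => MeasurableSet.inter (MeasurableSet.iInter fun j => ?_) ?_
    · rcases t j with c | l
      · have h4 : Measurable (fun x : XC a C => x.2 c) := by fun_prop
        exact h4 (measurableSet_singleton (w j))
      · show MeasurableSet {x : XC a C | h l = w j}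
        exact MeasurableSet.const _
    · have h4 : Measurable (fun x : XC a C => x.1 i w) := by fun_prop
      exact h4 (measurableSet_singleton true)

lemma fk_meas [Countable C] (h : Fin k → ℕ) : Measurable (fkJ h : XC a C → _) := by
  classical
  rw [measurable_pi_iff]
  intro o
  refine measurable_to_bool ?_
  have h1 : (fun x : XC a C => fkJ h x o) ⁻¹' {true} =
      {x : XC a C | fkGood x h} ∩ {x : XC a C | o.elim true (fkCode x h) = true} := by
    ext x
    show (decide (fkGood x h) && o.elim true (fkCode x h)) = true ↔ _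
    rw [Bool.and_eq_true, decide_eq_true_eq]
    rfl
  rw [h1]
  refine (fk_meas_good h).inter ?_
  rcases o with - | o
  · show MeasurableSet {x : XC a C | true = true}
    exact MeasurableSet.const _
  · exact fk_meas_code h o

lemma fk_iso {x y : XC a C} {e : ℕ ≃ ℕ} (he : IsoC x y e) (h : Fin k → ℕ) :
    fkJ h x = fkJ (fun i => e (h i)) y := by
  classical
  have h1 : rest y = e '' rest x := by
    unfold rest
    rw [image_compl_eq e.bijective]
    congr 1
    ext n
    simp only [mem_range, mem_image, exists_exists_eq_and, he.2]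
  have h2 : range (fun i => e (h i)) = e '' range h := by
    ext n
    simp only [mem_range, mem_image, exists_exists_eq_and]
  have h3 : fkGood x h ↔ fkGood y (fun i => e (h i)) := by
    unfold fkGood
    rw [h1, h2, e.injective.image_injective.eq_iff]
    refine and_congr_left fun _ => ?_
    constructor
    · intro hi i j hij
      exact hi (e.injective hij)
    · intro hi i j hij
      exact hi (congrArg e hij)
  have h4 : fkCode x h = fkCode y (fun i => e (h i)) := by
    funext o
    rcases o with p | ⟨i, t⟩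
    · show decide (x.2 p.1 = x.2 p.2) = decide (y.2 p.1 = y.2 p.2)
      rw [← he.2, ← he.2, decide_eq_decide, e.injective.eq_iff]
    · show x.1 i (fun j => Sum.elim x.2 h (t j)) =
        y.1 i (fun j => Sum.elim y.2 (fun i => e (h i)) (t j))
      rw [← he.1 i]
      refine congrArg (y.1 i) (funext fun j => ?_)
      show e (Sum.elim x.2 h (t j)) = _
      rcases t j with c | l
      · exact he.2 c
      · rfl
  funext o
  unfold fkJ
  rw [h4]
  congr 1
  rw [decide_eq_decide]
  exact h3

/-- equal codes give isomorphic structures -/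
lemma fk_build {x y : XC a C} {h h' : Fin k → ℕ} (hx : fkGood x h) (hy : fkGood y h')
    (hc : fkCode x h = fkCode y h') : ∃ e, IsoC x y e := by
  classical
  have hsur : ∀ {z : XC a C} {l : Fin k → ℕ}, fkGood z l →
      Function.Surjective (Sum.elim z.2 l) := by
    intro z l hz n
    by_cases hn : n ∈ rest z
    · rw [← hz.2] at hn
      obtain ⟨i, hi⟩ := hn
      exact ⟨Sum.inr i, hi⟩
    · unfold rest at hn
      rw [mem_compl_iff, not_not] at hn
      obtain ⟨c, hc⟩ := hn
      exact ⟨Sum.inl c, hc⟩
  have hne : ∀ {z : XC a C} {l : Fin k → ℕ}, fkGood z l → ∀ c i, z.2 c ≠ l i := by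
    intro z l hz c i
    have : l i ∈ rest z := by
      rw [← hz.2]
      exact mem_range_self i
    exact (fk_mem_rest z (l i)).1 this c
  have heq : ∀ u v : C ⊕ Fin k, Sum.elim x.2 h u = Sum.elim x.2 h v ↔
      Sum.elim y.2 h' u = Sum.elim y.2 h' v := by
    intro u v
    rcases u with c | i <;> rcases v with c' | i'
    · have := congrFun hc (Sum.inl (c, c'))
      exact decide_eq_decide.1 this
    · exact iff_of_false (hne hx c i') (hne hy c i')
    · exact iff_of_false (fun hh => hne hx c' i hh.symm) (fun hh => hne hy c' i hh.symm)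
    · show h i = h i' ↔ h' i = h' i'
      rw [hx.1.eq_iff, hy.1.eq_iff]
  obtain ⟨g, hg⟩ := (hsur hx).hasRightInverse
  let e0 : ℕ → ℕ := fun n => Sum.elim y.2 h' (g n)
  have he0 : ∀ u, e0 (Sum.elim x.2 h u) = Sum.elim y.2 h' u := by
    intro u
    exact (heq _ _).1 (hg _)
  have hinj : Function.Injective e0 := by
    intro n n' hnn
    have := (heq _ _).2 hnn
    rw [hg n, hg n'] at this
    exact this
  have hsurj : Function.Surjective e0 := by
    intro n
    obtain ⟨u, hu⟩ := hsur hy n
    exact ⟨Sum.elim x.2 h u, by rw [he0, hu]⟩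
  refine ⟨Equiv.ofBijective e0 ⟨hinj, hsurj⟩, ?_, ?_⟩
  · intro i t
    show y.1 i (fun j => Sum.elim y.2 h' (g (t j))) = x.1 i t
    have h1 := congrFun hc (Sum.inr ⟨i, fun j => g (t j)⟩)
    have h2 : x.1 i (fun j => Sum.elim x.2 h (g (t j))) =
      y.1 i (fun j => Sum.elim y.2 h' (g (t j))) := h1
    rw [← h2]
    exact congrArg (x.1 i) (funext fun j => hg (t j))
  · intro c
    exact he0 (Sum.inl c)

end

theorem t_FK : S_FK := by
  classical
  intro a C _ B hB hfew k
  have hU : (⋃ h : Fin k → ℕ, Set.range (fun x : B => fkJ h x.1)).Countable := by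
    by_contra hunc
    have : StandardBorelSpace B := hB.standardBorel
    obtain ⟨g, hcont, hg⟩ := Pool.Agent.H565R2.FO2.perfect_of_uncountable (Y := B) (X := XC a C)
      (fun y => y.1) measurable_subtype_coe (fun h x => fkJ h x.1)
      (fun h => (fk_meas h).comp measurable_subtype_coe)
      (fun x y => ∃ e, IsoC x.1 y.1 e) (by
        rintro x y ⟨e, he⟩ h
        exact ⟨fun i => e (h i), fk_iso he h⟩) hunc
    apply hfew
    refine ⟨fun x => (g x).1, hcont, fun x => (g x).2, fun x y hxy => ?_⟩
    by_contra hne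
    exact hg x y hne hxy
  -- choice of representatives
  have hch : ∀ z : Option ((C × C) ⊕ (Σ i : ℕ, (Fin (a i) → C ⊕ Fin k))) → Bool,
      ∃ y : XC a C, (∃ (y' : XC a C) (h : Fin k → ℕ), fkGood y' h ∧ fkJ h y' = z) →
        ∃ h : Fin k → ℕ, fkGood y h ∧ fkJ h y = z := by
    intro z
    by_cases hz : ∃ (y' : XC a C) (h : Fin k → ℕ), fkGood y' h ∧ fkJ h y' = z
    · obtain ⟨y', h, h1⟩ := hz
      exact ⟨y', fun _ => ⟨h, h1⟩⟩
    · exact ⟨(fun _ _ => false, fun _ => 0), fun h => absurd h hz⟩
  choose r hr using hch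
  refine ⟨r '' (⋃ h : Fin k → ℕ, Set.range (fun x : B => fkJ h x.1)), hU.image r, ?_⟩
  rintro x ⟨hxB, hxf, hxk⟩
  obtain ⟨h, hh⟩ : ∃ h : Fin k → ℕ, fkGood x h := by
    have h1 := hxf.fintype
    have h2 : Fintype.card (rest x) = k := by
      rw [← hxk, Set.ncard_eq_toFinset_card', Set.toFinset_card]
    let q := (Fintype.equivFinOfCardEq h2).symm
    refine ⟨fun i => (q i).1, ?_, ?_⟩
    · intro i j hij
      exact q.injective (Subtype.ext hij)
    · ext n
      rw [mem_range]
      constructor
      · rintro ⟨i, rfl⟩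
        exact (q i).2
      · intro hn
        exact ⟨q.symm ⟨n, hn⟩, by simp⟩
  refine ⟨r (fkJ h x), ⟨fkJ h x, mem_iUnion.2 ⟨h, ⟨x, hxB⟩, rfl⟩, rfl⟩, ?_⟩
  obtain ⟨h', h1, h2⟩ := hr (fkJ h x) ⟨x, h, hh, rfl⟩
  refine fk_build hh h1 ?_
  funext o
  have h3 : (decide (fkGood (r (fkJ h x)) h') && fkCode (r (fkJ h x)) h' o) =
      (decide (fkGood x h) && fkCode x h o) := congrFun h2 (some o)
  rw [decide_eq_true h1, decide_eq_true hh, Bool.true_and, Bool.true_and] at h3
  exact h3.symm

end Pool.Agent.H566Y
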