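import Pool.Agent.H566Y.Spec

/-! Task FSG (helper415; `convert` replaced by helper566). -/

set_option autoImplicit false

namespace Pool.Agent.H566Y

open Set Pool.Agent.H566X
open FirstOrder FirstOrder.Language

theorem fsg_closed (L : FirstOrder.Language.{0, 0}) (B : Set (L.Structure ℕ))
    (h : @IsClosed _ (codeTop L) B) : FSig L B :=
  ⟨fun _ => B, fun _ => h, by rw [iUnion_const]⟩

theorem fsg_inter (L : FirstOrder.Language.{0, 0}) (A B : Set (L.Structure ℕ))
    (hA : FSig L A) (hB : FSig L B) : FSig L (A ∩ B) := by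
  obtain ⟨F, hF, rfl⟩ := hA
  obtain ⟨G, hG, rfl⟩ := hB
  let _ := codeTop L
  refine ⟨fun k => F k.unpair.1 ∩ G k.unpair.2, fun k => (hF _).inter (hG _), ?_⟩
  ext S
  simp only [mem_inter_iff, mem_iUnion]
  constructor
  · rintro ⟨⟨i, hi⟩, ⟨j, hj⟩⟩
    refine ⟨Nat.pair i j, ?_, ?_⟩
    · rw [Nat.unpair_pair]; exact hi
    · rw [Nat.unpair_pair]; exact hj
  · rintro ⟨k, h1, h2⟩
    exact ⟨⟨_, h1⟩, ⟨_, h2⟩⟩

theorem fsg_union (L : FirstOrder.Language.{0, 0}) (ι : Type) [Countable ι]
    (F : ι → Set (L.Structure ℕ)) (hF : ∀ i, @IsClosed _ (codeTop L) (F i)) :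
    FSig L (⋃ i, F i) := by
  let _ := codeTop L
  rcases isEmpty_or_nonempty ι with h | h
  · refine ⟨fun _ => ∅, fun _ => isClosed_empty, ?_⟩
    rw [iUnion_of_empty, iUnion_const]
  · obtain ⟨e, he⟩ := exists_surjective_nat ι
    refine ⟨fun k => F (e k), fun k => hF _, ?_⟩
    exact (he.iUnion_comp F).symm

theorem fsg_exs (hUC : S_UC) (L : FirstOrder.Language.{0, 0}) (m : ℕ)
    (ψ : L.BoundedFormula Empty m) (hψ : ψ.IsUniversal) :
    FSig L {S : L.Structure ℕ | @Sentence.Realize L ℕ S ψ.exs} := by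
  have h1 : {S : L.Structure ℕ | @Sentence.Realize L ℕ S ψ.exs} =
      ⋃ v : Fin m → ℕ, {S : L.Structure ℕ | @BoundedFormula.Realize L ℕ S Empty m ψ
        (fun e => e.elim) v} := by
    ext S
    let _ := S
    rw [mem_iUnion]
    have h3 : @Sentence.Realize L ℕ S ψ.exs ↔
        ∃ xs : Fin m → ℕ, ψ.Realize (fun e : Empty => (e.elim : ℕ)) xs := by
      unfold Sentence.Realize
      rw [BoundedFormula.realize_exs]
      have h4 : ∀ u w : Empty → ℕ, (∃ xs, ψ.Realize u xs) ↔ ∃ xs, ψ.Realize w xs := by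
        intro u w
        have h5 : u = w := funext fun e => e.elim
        rw [h5]
      exact h4 _ _
    exact h3
  rw [h1]
  exact fsg_union L _ _ fun v => hUC L m ψ hψ v

theorem fsg_univ (hUC : S_UC) (L : FirstOrder.Language.{0, 0}) (φ : L.Sentence)
    (hφ : BoundedFormula.IsUniversal φ) :
    @IsClosed _ (codeTop L) {S : L.Structure ℕ | @Sentence.Realize L ℕ S φ} := by
  have h1 := hUC L 0 φ hφ default
  have h3 : {S : L.Structure ℕ | @Sentence.Realize L ℕ S φ} =
      {S : L.Structure ℕ | @BoundedFormula.Realize L ℕ S Empty 0 φ (fun e => e.elim) default} := by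
    ext S
    rw [mem_ofPred_eq, mem_ofPred_eq]
    unfold Sentence.Realize Formula.Realize
    have h4 : ∀ (u w : Empty → ℕ) (xs ys : Fin 0 → ℕ),
        @BoundedFormula.Realize L ℕ S Empty 0 φ u xs ↔
        @BoundedFormula.Realize L ℕ S Empty 0 φ w ys := by
      intro u w xs ys
      have h5 : u = w := funext fun e => e.elim
      have h6 : xs = ys := funext fun e => e.elim0
      rw [h5, h6]
    exact h4 _ _ _ _
  rw [h3]
  exact h1

theorem t_FSG : S_FSG := by
  intro hUC L T T' hfin hT hT' hsub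
  have h1 : {S : L.Structure ℕ | @Theory.Model L ℕ S T} =
      (⋂ φ ∈ {φ | φ ∈ T ∧ BoundedFormula.IsUniversal φ},
        {S : L.Structure ℕ | @Sentence.Realize L ℕ S φ}) ∩
      {S : L.Structure ℕ | ∀ φ ∈ T', @Sentence.Realize L ℕ S φ} := by
    ext S
    let _ := S
    have h2 : @Theory.Model L ℕ S T ↔ ∀ φ ∈ T, @Sentence.Realize L ℕ S φ := Theory.model_iff T
    rw [mem_inter_iff, mem_iInter₂]
    constructor
    · intro h
      exact ⟨fun φ hφ => h2.1 h φ hφ.1, fun φ hφ => h2.1 h φ (hsub hφ)⟩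
    · rintro ⟨ha, hb⟩
      refine h2.2 fun φ hφ => ?_
      rcases hT φ hφ with h | h
      · exact hb φ h
      · exact ha φ ⟨hφ, h⟩
  rw [h1]
  refine fsg_inter L _ _ (fsg_closed L _ ?_) ?_
  · letI := codeTop L
    exact isClosed_biInter fun φ hφ => fsg_univ hUC L φ hφ.2
  · clear h1 hsub hT
    induction T', hfin using Set.Finite.induction_on with
    | empty =>
      refine fsg_closed L _ ?_
      let _ := codeTop L
      have h2 : {S : L.Structure ℕ | ∀ φ ∈ (∅ : L.Theory), @Sentence.Realize L ℕ S φ} = univ := by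
        ext S
        simp
      rw [h2]
      exact isClosed_univ
    | insert _ _ ih =>
      rename_i φ0 T0 _ _
      have h2 : {S : L.Structure ℕ | ∀ φ ∈ (insert φ0 T0 : Set L.Sentence), @Sentence.Realize L ℕ S φ} =
          {S : L.Structure ℕ | @Sentence.Realize L ℕ S φ0} ∩
          {S : L.Structure ℕ | ∀ φ ∈ T0, @Sentence.Realize L ℕ S φ} := by
        ext S
        constructor
        · intro h
          exact ⟨h φ0 (mem_insert _ _), fun φ hφ => h φ (mem_insert_of_mem _ hφ)⟩
        · rintro ⟨ha, hb⟩ φ hφ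
          rcases hφ with h | h
          · rw [h]; exact ha
          · exact hb φ h
      have h3 := ih fun φ hφ => hT' φ (mem_insert_of_mem _ hφ)
      obtain ⟨m, ψ, hψ, he⟩ := hT' φ0 (mem_insert _ _)
      have h4 := fsg_exs hUC L m ψ hψ
      rw [← he] at h4
      have h5 := fsg_inter L _ _ h4 h3
      rw [← h2] at h5
      exact h5

end Pool.Agent.H566Y
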