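import Pool.Agent.H566Y.Spec

set_option autoImplicit false

namespace Pool.Agent.H566Y

open Set Pool.Agent.H566X FirstOrder FirstOrder.Language

theorem model_iso {L : FirstOrder.Language.{0, 0}} {T : L.Theory} {S S' : L.Structure ℕ}
    (h : Nonempty (@FirstOrder.Language.Equiv L ℕ ℕ S S')) (hS : @Theory.Model L ℕ S T) :
    @Theory.Model L ℕ S' T := by
  obtain ⟨e⟩ := h
  letI := S
  exact @StrongHomClass.theory_model L ℕ ℕ S S' T _ _ _ e hS

theorem fin_aux (h1 : S_SEM) (h2 : S_CONV) (h3 : S_FSG) (h4 : S_UC)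
    (L : FirstOrder.Language.{0, 0}) (hL : Countable L.Symbols)
    (hf : ∀ n, IsEmpty (L.Functions (n + 1))) (T : L.Theory) :
    (FSig L {S : L.Structure ℕ | @Theory.Model L ℕ S T} →
      (∃ g : ℕ → L.Structure ℕ, ∀ S : L.Structure ℕ, @Theory.Model L ℕ S T →
        ∃ n, Nonempty (@FirstOrder.Language.Equiv L ℕ ℕ S (g n))) ∨
      (∃ f : (ℕ → Bool) → L.Structure ℕ, (∀ x, @Theory.Model L ℕ (f x) T) ∧
        (∀ x y, Nonempty (@FirstOrder.Language.Equiv L ℕ ℕ (f x) (f y)) → x = y) ∧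
        (∀ (n : ℕ) (R : L.Relations n) (t : Fin n → ℕ), IsClopen {x | (f x).RelMap R t}) ∧
        (∀ (n : ℕ) (F : L.Functions n) (t : Fin n → ℕ) (b : ℕ),
          IsOpen {x | (f x).funMap F t = b}))) ∧
    ((∃ T' ⊆ T, T'.Finite ∧ (∀ φ ∈ T', ∃ (m : ℕ) (ψ : L.BoundedFormula Empty m),
        ψ.IsUniversal ∧ φ = ψ.exs) ∧ ∀ φ ∈ T, φ ∈ T' ∨ BoundedFormula.IsUniversal φ) →
      FSig L {S : L.Structure ℕ | @Theory.Model L ℕ S T}) := by
  constructor
  · intro hF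
    exact h2 h1 L hL hf _ hF (fun S hS S' h => model_iso h hS)
  · rintro ⟨T', hT', hfin, he, hu⟩
    exact h3 h4 L T T' hfin hu he hT'

end Pool.Agent.H566Y
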