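import Pool.Agent.H566Y.Spec

/-!
Task IK: a given diagram of the constants, infinitely many other elements.
-/

set_option autoImplicit false

namespace Pool.Agent.H566Y

open Set Pool.Agent.H566X

section
variable {a : ℕ → ℕ} (Q : Set ℕ)

/-- symbols of the new language -/
abbrev IkIx (a : ℕ → ℕ) (Q : Set ℕ) : Type := Σ i : ℕ, (Fin (a i) → Option Q)

variable (ν : ℕ ≃ {n : ℕ // n ∉ Q})

/-- the tuple given by a pattern -/
def ikpar {r : ℕ} (p : Fin r → Option Q) (t : Fin r → ℕ) : Fin r → ℕ :=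
  fun k => match p k with
    | some c => (c : ℕ)
    | none => ν (t k)

open Classical in
/-- the pattern of a tuple -/
noncomputable def ikpatt {r : ℕ} (s : Fin r → ℕ) : Fin r → Option Q :=
  fun k => if h : s k ∈ Q then some ⟨s k, h⟩ else none

open Classical in
/-- the number of an element outside of `Q` -/
noncomputable def iklow (n : ℕ) : ℕ := if h : n ∈ Q then 0 else ν.symm ⟨n, h⟩

theorem ikpar_patt {r : ℕ} (s : Fin r → ℕ) :
    ikpar Q ν (ikpatt Q s) (fun k => iklow Q ν (s k)) = s := by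
  funext k
  unfold ikpar ikpatt iklow
  by_cases h : s k ∈ Q
  · simp [h]
  · simp [h]

open Classical in
/-- the permutation fixing `Q` pointwise -/
noncomputable def iklift (e : Equiv.Perm ℕ) : Equiv.Perm ℕ := Equiv.Perm.extendDomain e ν

theorem iklift_mem (e : Equiv.Perm ℕ) {n : ℕ} (h : n ∈ Q) : iklift Q ν e n = n := by
  classical
  unfold iklift
  exact Equiv.Perm.extendDomain_apply_not_subtype e ν (not_not.2 h)

theorem iklift_nu (e : Equiv.Perm ℕ) (n : ℕ) : iklift Q ν e (ν n) = ν (e n) := by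
  classical
  unfold iklift
  exact Equiv.Perm.extendDomain_apply_image e ν n

theorem iklift_par {r : ℕ} (e : Equiv.Perm ℕ) (p : Fin r → Option Q) (t : Fin r → ℕ) :
    iklift Q ν e ∘ ikpar Q ν p t = ikpar Q ν p (e ∘ t) := by
  funext k
  simp only [Function.comp, ikpar]
  rcases p k with _ | c
  · simp only
    exact iklift_nu Q ν e (t k)
  · simp only
    exact iklift_mem Q ν e c.2

theorem ik_exists_lower {ρ : Equiv.Perm ℕ} (hρ : ∀ i ∈ Q, ρ i = i) :
    ∃ e : Equiv.Perm ℕ, iklift Q ν e = ρ := by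
  have h : ∀ x, ρ x ∉ Q ↔ x ∉ Q := by
    intro x
    refine not_congr ⟨fun hx => ?_, fun hx => ?_⟩
    · have h1 := hρ _ hx
      have h2 := ρ.injective h1
      rwa [h2] at hx
    · rwa [hρ x hx]
  refine ⟨(ν.trans (ρ.subtypePerm h)).trans ν.symm, ?_⟩
  ext n
  by_cases hn : n ∈ Q
  · rw [iklift_mem Q ν _ hn, hρ n hn]
  · have h1 : n = ν (ν.symm ⟨n, hn⟩) := by rw [Equiv.apply_symm_apply]
    rw [h1, iklift_nu]
    simp only [Equiv.trans_apply, Equiv.apply_symm_apply]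
    rfl

/-- adding the constants to the language -/
def ikhat' (x : RS a ℕ) : (p : IkIx a Q) → (Fin (a p.1) → ℕ) → Bool :=
  fun p t => x p.1 (ikpar Q ν p.2 t)

/-- recovering the structure -/
noncomputable def ikun' (z : (p : IkIx a Q) → (Fin (a p.1) → ℕ) → Bool) : RS a ℕ :=
  fun i s => z ⟨i, ikpatt Q s⟩ (fun k => iklow Q ν (s k))

theorem ikun_hat' (x : RS a ℕ) : ikun' Q ν (ikhat' Q ν x) = x := by
  funext i s
  show x i (ikpar Q ν (ikpatt Q s) (fun k => iklow Q ν (s k))) = x i s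
  rw [ikpar_patt]

variable (E : ℕ ≃ IkIx a Q)

/-- the new arities -/
abbrev ikar : ℕ → ℕ := fun j => a (E j).1

/-- the coded structure -/
def ikhat (x : RS a ℕ) : RS (ikar Q E) ℕ := fun j => ikhat' Q ν x (E j)

/-- decoding -/
noncomputable def ikun (y : RS (ikar Q E) ℕ) : RS a ℕ :=
  ikun' Q ν (Equiv.piCongrLeft (fun p : IkIx a Q => (Fin (a p.1) → ℕ) → Bool) E y)

theorem ikun_hat (x : RS a ℕ) : ikun Q ν E (ikhat Q ν E x) = x := by
  have h : Equiv.piCongrLeft (fun p : IkIx a Q => (Fin (a p.1) → ℕ) → Bool) E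
      (ikhat Q ν E x) = ikhat' Q ν x := by
    funext p
    obtain ⟨j, rfl⟩ := E.surjective p
    rw [Equiv.piCongrLeft_apply_apply]
    rfl
  unfold ikun
  rw [h, ikun_hat']

theorem ikhat_cont : Continuous (ikhat (a := a) Q ν E) :=
  continuous_pi fun j => continuous_pi fun t =>
    (continuous_apply (ikpar Q ν (E j).2 t)).comp (continuous_apply (E j).1)

theorem ikun_cont : Continuous (ikun (a := a) Q ν E) := by
  have h1 : Continuous (Equiv.piCongrLeft (fun p : IkIx a Q => (Fin (a p.1) → ℕ) → Bool) E) :=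
    (Homeomorph.piCongrLeft (Y := fun p : IkIx a Q => (Fin (a p.1) → ℕ) → Bool) E).continuous
  have h2 : Continuous (ikun' (a := a) Q ν) :=
    continuous_pi fun i => continuous_pi fun s =>
      (continuous_apply (fun k => iklow Q ν (s k))).comp
        (continuous_apply (⟨i, ikpatt Q s⟩ : IkIx a Q))
  exact h2.comp h1

theorem ikiso (x x' : RS a ℕ) (e : ℕ ≃ ℕ) :
    Iso (ikhat Q ν E x) (ikhat Q ν E x') e ↔ Iso x x' (iklift Q ν e) := by
  constructor
  · intro h i s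
    obtain ⟨j, hj⟩ := E.surjective ⟨i, ikpatt Q s⟩
    have h1 : ∀ p : IkIx a Q, E j = p → ∀ t : Fin (a p.1) → ℕ,
        ikhat' Q ν x' p (e ∘ t) = ikhat' Q ν x p t := by
      rintro p rfl t
      exact h j t
    have h2 := h1 _ hj (fun k => iklow Q ν (s k))
    have h3 : ikhat' Q ν x ⟨i, ikpatt Q s⟩ (fun k => iklow Q ν (s k)) = x i s := by
      show x i (ikpar Q ν (ikpatt Q s) (fun k => iklow Q ν (s k))) = x i s
      rw [ikpar_patt]
    rw [h3] at h2
    rw [← h2]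
    show x' i (iklift Q ν e ∘ s) =
      x' i (ikpar Q ν (ikpatt Q s) (e ∘ fun k => iklow Q ν (s k)))
    rw [← iklift_par, ikpar_patt]
  · intro h j t
    show x' (E j).1 (ikpar Q ν (E j).2 (e ∘ t)) = x (E j).1 (ikpar Q ν (E j).2 t)
    rw [← iklift_par]
    exact h _ _

theorem ikiso_inv (x x' : RS a ℕ) (ρ : ℕ ≃ ℕ) (hρ : ∀ i ∈ Q, ρ i = i) (h : Iso x x' ρ) :
    ∃ e : ℕ ≃ ℕ, Iso (ikhat Q ν E x) (ikhat Q ν E x') e := by
  obtain ⟨e, he⟩ := ik_exists_lower Q ν hρ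
  refine ⟨e, ?_⟩
  rw [ikiso, he]
  exact h

theorem ikC_closed {F : Set (RS a ℕ)} (hF : IsClosed F) : IsClosed (ikhat Q ν E '' F) := by
  have : ikhat Q ν E '' F = {y | ikhat Q ν E (ikun Q ν E y) = y} ∩ ikun Q ν E ⁻¹' F := by
    ext y
    constructor
    · rintro ⟨x, hx, rfl⟩
      exact ⟨by show ikhat Q ν E (ikun Q ν E (ikhat Q ν E x)) = ikhat Q ν E x; rw [ikun_hat],
        by show ikun Q ν E (ikhat Q ν E x) ∈ F; rw [ikun_hat]; exact hx⟩
    · rintro ⟨h3, h4⟩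
      exact ⟨ikun Q ν E y, h4, h3⟩
  rw [this]
  exact (isClosed_eq ((ikhat_cont Q ν E).comp (ikun_cont Q ν E)) continuous_id).inter
    (hF.preimage (ikun_cont Q ν E))

theorem ik_transfer {x : RS a ℕ} {N : RS (ikar Q E) ℕ} {e : ℕ ≃ ℕ}
    (h : Iso (ikhat Q ν E x) N e) :
    ∃ x' : RS a ℕ, N = ikhat Q ν E x' ∧ Iso x x' (iklift Q ν e) := by
  set ρ : Equiv.Perm ℕ := (iklift Q ν e).symm with hρ
  have hiso : Iso x (fun i t => x i (ρ ∘ t)) (iklift Q ν e) := by
    intro i t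
    show x i (ρ ∘ (iklift Q ν e ∘ t)) = x i t
    congr 1
    funext k
    simp [hρ]
  refine ⟨fun i t => x i (ρ ∘ t), ?_, hiso⟩
  have h2 := (ikiso Q ν E _ _ e).2 hiso
  funext j t
  have h3 := h j (e.symm ∘ t)
  have h4 := h2 j (e.symm ∘ t)
  have h5 : e ∘ (e.symm ∘ t) = t := by funext k; simp
  rw [h5] at h3 h4
  rw [h3, h4]

end

/-- two maps with the same kernel and infinite complements of the ranges -/
theorem ik_match {C : Type} (f g : C → ℕ) (h : ∀ c c', f c = f c' ↔ g c = g c')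
    (hf : ((range f)ᶜ).Infinite) (hg : ((range g)ᶜ).Infinite) :
    ∃ e : ℕ ≃ ℕ, ∀ c, e (f c) = g c := by
  classical
  let φ : range f → range g := fun y => ⟨g (Classical.choose y.2), mem_range_self _⟩
  have hφ : ∀ c (hc : f c ∈ range f), φ ⟨f c, hc⟩ = ⟨g c, mem_range_self c⟩ := by
    intro c hc
    apply Subtype.ext
    exact (h _ _).1 (Classical.choose_spec hc)
  have hφb : Function.Bijective φ := by
    constructor
    · rintro ⟨_, c, rfl⟩ ⟨_, c', rfl⟩ hcc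
      rw [hφ c (mem_range_self c), hφ c' (mem_range_self c')] at hcc
      have h1 : g c = g c' := congrArg Subtype.val hcc
      exact Subtype.ext ((h c c').2 h1)
    · rintro ⟨_, c, rfl⟩
      exact ⟨⟨f c, mem_range_self c⟩, hφ c _⟩
  have : Infinite ↥((range f)ᶜ) := hf.to_subtype
  have : Infinite ↥((range g)ᶜ) := hg.to_subtype
  obtain ⟨ψ⟩ : Nonempty (↥((range f)ᶜ) ≃ ↥((range g)ᶜ)) := nonempty_equiv_of_countable
  refine ⟨(Equiv.Set.sumCompl (range f)).symm.trans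
    (((Equiv.ofBijective φ hφb).sumCongr ψ).trans (Equiv.Set.sumCompl (range g))), fun c => ?_⟩
  rw [Equiv.trans_apply, Equiv.Set.sumCompl_symm_apply_of_mem (mem_range_self c),
    Equiv.trans_apply, Equiv.sumCongr_apply, Sum.map_inl, Equiv.ofBijective_apply, hφ,
    Equiv.Set.sumCompl_apply_inl]

theorem t_IK : S_IK := by
  intro hFSI a C _ B F hF hBF hInv hFew d
  rcases Set.eq_empty_or_nonempty {x : XC a C | x ∈ B ∧ Dg x = d ∧ (rest x).Infinite} with
    hemp | ⟨x₀, hx₀⟩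
  · rw [hemp]
    exact ⟨∅, Set.countable_empty, fun x hx => absurd hx (Set.notMem_empty x)⟩
  obtain ⟨hx₀B, hx₀d, hx₀i⟩ := hx₀
  set Q : Set ℕ := range x₀.2 with hQ
  have hinf : Infinite {n : ℕ // n ∉ Q} := hx₀i.to_subtype
  obtain ⟨ν⟩ : Nonempty (ℕ ≃ {n : ℕ // n ∉ Q}) := nonempty_equiv_of_countable
  have : Infinite (IkIx a Q) :=
    Infinite.of_injective (fun i : ℕ => (⟨i, fun _ => none⟩ : IkIx a Q)) (fun i j h => by
      simpa using congrArg Sigma.fst h)
  obtain ⟨E⟩ : Nonempty (ℕ ≃ IkIx a Q) := nonempty_equiv_of_countable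
  have hmem : ∀ c, x₀.2 c ∈ Q := fun c => mem_range_self c
  have hcont : Continuous (fun M : RS a ℕ => ((M, x₀.2) : XC a C)) :=
    continuous_id.prodMk continuous_const
  set BM : Set (RS a ℕ) := {M | ((M, x₀.2) : XC a C) ∈ B} with hBM
  have hBMk : BM = ⋃ k, (fun M : RS a ℕ => ((M, x₀.2) : XC a C)) ⁻¹' (F k) := by
    rw [hBM, hBF]
    ext M
    simp
  have hinv : H566X.Inv (ikhat Q ν E '' BM) := by
    rintro _ ⟨M, hM, rfl⟩ N ⟨e, he⟩
    obtain ⟨M', hN, hiso⟩ := ik_transfer Q ν E he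
    refine ⟨M', ?_, hN.symm⟩
    exact hInv _ hM _ ⟨iklift Q ν e, hiso, fun c => iklift_mem Q ν e (hmem c)⟩
  have hfew : Few (ikhat Q ν E '' BM) := by
    rintro ⟨g, hg, hgC, hgi⟩
    apply hFew
    have h1 : ∀ A, ikun Q ν E (g A) ∈ BM ∧ ikhat Q ν E (ikun Q ν E (g A)) = g A := by
      intro A
      obtain ⟨x, hx, hxg⟩ := hgC A
      rw [← hxg, ikun_hat]
      exact ⟨hx, rfl⟩
    refine ⟨fun A => (ikun Q ν E (g A), x₀.2),
      hcont.comp ((ikun_cont Q ν E).comp hg), fun A => (h1 A).1, ?_⟩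
    rintro A A' ⟨e, he, hei⟩
    have hfix : ∀ i ∈ Q, e i = i := by
      rintro _ ⟨c, rfl⟩
      exact hei c
    obtain ⟨e', he'⟩ := ikiso_inv Q ν E _ _ e hfix he
    rw [(h1 A).2, (h1 A').2] at he'
    exact hgi A A' ⟨e', he'⟩
  have hunion : ikhat Q ν E '' BM =
      ⋃ k, ikhat Q ν E '' ((fun M : RS a ℕ => ((M, x₀.2) : XC a C)) ⁻¹' (F k)) := by
    rw [hBMk, Set.image_iUnion]
  obtain ⟨D, hD, hDC⟩ := hFSI _ _ _
    (fun k => ikC_closed Q ν E ((hF k).preimage hcont)) hunion hinv hfew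
  refine ⟨(fun z => ((ikun Q ν E z, x₀.2) : XC a C)) '' D, hD.image _, ?_⟩
  rintro x ⟨hxB, hxd, hxi⟩
  have hker : ∀ c c', x.2 c = x.2 c' ↔ x₀.2 c = x₀.2 c' := by
    intro c c'
    have h1 := congrFun (hxd.trans hx₀d.symm) (Sum.inl (c, c'))
    have h2 : decide (x.2 c = x.2 c') = decide (x₀.2 c = x₀.2 c') := h1
    exact decide_eq_decide.1 h2
  obtain ⟨e, he⟩ := ik_match x.2 x₀.2 hker hxi hx₀i
  set M : RS a ℕ := fun i t => x.1 i (e.symm ∘ t) with hMdef
  have hxM : IsoC x (M, x₀.2) e := by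
    refine ⟨fun i t => ?_, he⟩
    show x.1 i (e.symm ∘ (e ∘ t)) = x.1 i t
    have h5 : e.symm ∘ (e ∘ t) = t := by funext k; simp
    rw [h5]
  have hM : M ∈ BM := hInv x hxB _ ⟨e, hxM⟩
  obtain ⟨N, hND, e', he'⟩ := hDC _ ⟨M, hM, rfl⟩
  obtain ⟨M', hN, hiso⟩ := ik_transfer Q ν E he'
  refine ⟨_, ⟨N, hND, rfl⟩, e.trans (iklift Q ν e'), ?_, ?_⟩
  · intro i t
    show (ikun Q ν E N) i ((e.trans (iklift Q ν e')) ∘ t) = x.1 i t
    rw [hN, ikun_hat]
    have h1 := hiso i (e ∘ t)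
    have h2 := hxM.1 i t
    rw [← h2]
    exact h1
  · intro c
    show iklift Q ν e' (e (x.2 c)) = x₀.2 c
    rw [he c]
    exact iklift_mem Q ν e' (hmem c)

end Pool.Agent.H566Y
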