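import Pool.Agent.H566Y.Spec

/-! Assembly of the theorem for `F_σ` classes of structures with constants. -/

set_option autoImplicit false

namespace Pool.Agent.H566Y

open Set Pool.Agent.H566X

theorem t_SEM (h1 : S_CD) (h2 : S_FK) (h3 : S_IK) (h4 : S_FSI) : S_SEM := by
  intro a C _ B F hF hB hI hFew
  have hmeas : MeasurableSet B := by
    rw [hB]
    exact MeasurableSet.iUnion (fun k => (hF k).measurableSet)
  have hDg := h1 a C B hmeas hFew
  have hfin := h2 a C B hmeas hFew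
  have hinf := h3 h4 a C B F hF hB hI hFew
  choose D1 hD1 hD1' using hfin
  choose D2 hD2 hD2' using hinf
  refine ⟨(⋃ k, D1 k) ∪ ⋃ d ∈ Dg '' B, D2 d, ?_, ?_⟩
  · exact (Set.countable_iUnion hD1).union (hDg.biUnion (fun d _ => hD2 d))
  · intro x hx
    by_cases h : (rest x).Finite
    · obtain ⟨y, hy, e, he⟩ := hD1' _ x ⟨hx, h, rfl⟩
      exact ⟨y, Or.inl (mem_iUnion.2 ⟨_, hy⟩), e, he⟩
    · obtain ⟨y, hy, e, he⟩ := hD2' (Dg x) x ⟨hx, rfl, h⟩
      exact ⟨y, Or.inr (mem_biUnion (mem_image_of_mem _ hx) hy), e, he⟩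

end Pool.Agent.H566Y
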