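import Pool.Agent.H566Y.Spec

/-! Universal formulas define closed sets of structures. -/

set_option autoImplicit false

namespace Pool.Agent.H566Y

open Set Pool.Agent.H566X
open FirstOrder FirstOrder.Language

variable {L : FirstOrder.Language.{0, 0}} {α : Type}

theorem uc_open_fun {n : ℕ} (f : L.Functions n) (t : Fin n → ℕ) (b : ℕ) :
    @IsOpen _ (codeTop L) {S : L.Structure ℕ | S.funMap f t = b} :=
  TopologicalSpace.isOpen_generateFrom_of_mem (Or.inr ⟨n, f, t, b, rfl⟩)

theorem uc_open_rel {n : ℕ} (R : L.Relations n) (t : Fin n → ℕ) :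
    @IsOpen _ (codeTop L) {S : L.Structure ℕ | S.RelMap R t} :=
  TopologicalSpace.isOpen_generateFrom_of_mem (Or.inl (Or.inl ⟨n, R, t, rfl⟩))

theorem uc_open_nrel {n : ℕ} (R : L.Relations n) (t : Fin n → ℕ) :
    @IsOpen _ (codeTop L) {S : L.Structure ℕ | ¬ S.RelMap R t} :=
  TopologicalSpace.isOpen_generateFrom_of_mem (Or.inl (Or.inr ⟨n, R, t, rfl⟩))

theorem uc_open_term (t : L.Term α) (v : α → ℕ) (b : ℕ) :
    @IsOpen _ (codeTop L) {S : L.Structure ℕ | @Term.realize L ℕ S α v t = b} := by
  let _ := codeTop L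
  induction t generalizing b with
  | var k =>
    have : {S : L.Structure ℕ | @Term.realize L ℕ S α v (Term.var k) = b} =
        {_S : L.Structure ℕ | v k = b} := rfl
    rw [this]
    exact isOpen_const
  | @func l f ts ih =>
    have h1 : {S : L.Structure ℕ | @Term.realize L ℕ S α v (Term.func f ts) = b} =
        ⋃ u : Fin l → ℕ, ((⋂ i, {S : L.Structure ℕ | @Term.realize L ℕ S α v (ts i) = u i}) ∩
          {S : L.Structure ℕ | S.funMap f u = b}) := by
      ext S
      simp only [mem_iUnion, mem_inter_iff, mem_iInter]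
      constructor
      · intro h
        exact ⟨fun i => @Term.realize L ℕ S α v (ts i), fun i => rfl, h⟩
      · rintro ⟨u, hu, h⟩
        have hu' : (fun i => @Term.realize L ℕ S α v (ts i)) = u := funext fun i => hu i
        change S.funMap f (fun i => @Term.realize L ℕ S α v (ts i)) = b
        rw [hu']
        exact h
    rw [h1]
    exact isOpen_iUnion fun u => (isOpen_iInter_of_finite fun i => ih i (u i)).inter
      (uc_open_fun f u b)

theorem uc_clopen_eq (t t' : L.Term α) (v : α → ℕ) :
    @IsClopen _ (codeTop L) {S : L.Structure ℕ | @Term.realize L ℕ S α v t =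
      @Term.realize L ℕ S α v t'} := by
  let _ := codeTop L
  constructor
  · rw [← isOpen_compl_iff]
    have h1 : {S : L.Structure ℕ | @Term.realize L ℕ S α v t =
        @Term.realize L ℕ S α v t'}ᶜ = ⋃ p : {p : ℕ × ℕ // p.1 ≠ p.2},
          ({S : L.Structure ℕ | @Term.realize L ℕ S α v t = p.1.1} ∩
            {S : L.Structure ℕ | @Term.realize L ℕ S α v t' = p.1.2}) := by
      ext S
      simp only [mem_iUnion, mem_inter_iff, mem_compl_iff]
      constructor
      · intro h
        exact ⟨⟨(_, _), h⟩, rfl, rfl⟩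
      · rintro ⟨⟨p, hp⟩, h2, h3⟩ h4
        exact hp (by rw [← h2.symm.trans (h4.trans h3)])
    rw [h1]
    exact isOpen_iUnion fun p => (uc_open_term t v _).inter (uc_open_term t' v _)
  · have h1 : {S : L.Structure ℕ | @Term.realize L ℕ S α v t =
        @Term.realize L ℕ S α v t'} = ⋃ b : ℕ,
          ({S : L.Structure ℕ | @Term.realize L ℕ S α v t = b} ∩
            {S : L.Structure ℕ | @Term.realize L ℕ S α v t' = b}) := by
      ext S
      simp only [mem_iUnion, mem_inter_iff]
      constructor
      · intro h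
        exact ⟨_, rfl, Eq.symm h⟩
      · rintro ⟨b, h2, h3⟩
        exact Eq.trans h2 (Eq.symm h3)
    rw [h1]
    exact isOpen_iUnion fun b => (uc_open_term t v _).inter (uc_open_term t' v _)

theorem uc_tuple {l : ℕ} (ts : Fin l → L.Term α) (v : α → ℕ) (P : (Fin l → ℕ) →
    L.Structure ℕ → Prop) (hP : ∀ u, @IsOpen _ (codeTop L) {S : L.Structure ℕ | P u S}) :
    @IsOpen _ (codeTop L) {S : L.Structure ℕ |
      P (fun i => @Term.realize L ℕ S α v (ts i)) S} := by
  let _ := codeTop L
  have h1 : {S : L.Structure ℕ | P (fun i => @Term.realize L ℕ S α v (ts i)) S} =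
      ⋃ u : Fin l → ℕ, ((⋂ i, {S : L.Structure ℕ | @Term.realize L ℕ S α v (ts i) = u i}) ∩
        {S : L.Structure ℕ | P u S}) := by
    ext S
    simp only [mem_iUnion, mem_inter_iff, mem_iInter]
    constructor
    · intro h
      exact ⟨fun i => @Term.realize L ℕ S α v (ts i), fun i => rfl, h⟩
    · rintro ⟨u, hu, h⟩
      have hu' : (fun i => @Term.realize L ℕ S α v (ts i)) = u := funext fun i => hu i
      change P (fun i => @Term.realize L ℕ S α v (ts i)) S
      rw [hu']
      exact h
  rw [h1]
  exact isOpen_iUnion fun u => (isOpen_iInter_of_finite fun i => uc_open_term (ts i) v (u i)).inter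
    (hP u)

theorem uc_clopen_rel {l : ℕ} (R : L.Relations l) (ts : Fin l → L.Term α) (v : α → ℕ) :
    @IsClopen _ (codeTop L) {S : L.Structure ℕ |
      S.RelMap R (fun i => @Term.realize L ℕ S α v (ts i))} := by
  let _ := codeTop L
  constructor
  · rw [← isOpen_compl_iff]
    exact uc_tuple ts v (fun u S => ¬ S.RelMap R u) (uc_open_nrel R)
  · exact uc_tuple ts v (fun u S => S.RelMap R u) (uc_open_rel R)

theorem uc_clopen_qf {n : ℕ} {φ : L.BoundedFormula α n} (h : φ.IsQF) (v : α → ℕ)
    (xs : Fin n → ℕ) :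
    @IsClopen _ (codeTop L) {S : L.Structure ℕ | @BoundedFormula.Realize L ℕ S α n φ v xs} := by
  let _ := codeTop L
  induction h with
  | falsum =>
    have : {S : L.Structure ℕ | @BoundedFormula.Realize L ℕ S α n BoundedFormula.falsum v xs} = ∅ := by
      ext S
      exact Iff.rfl
    rw [this]
    exact isClopen_empty
  | of_isAtomic h =>
    cases h with
    | equal t t' => exact uc_clopen_eq t t' (Sum.elim v xs)
    | rel R ts => exact uc_clopen_rel R ts (Sum.elim v xs)
  | @imp φ ψ _ _ ih ih' =>
    have : {S : L.Structure ℕ | @BoundedFormula.Realize L ℕ S α n (φ.imp ψ) v xs} =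
        {S : L.Structure ℕ | @BoundedFormula.Realize L ℕ S α n φ v xs}ᶜ ∪
        {S : L.Structure ℕ | @BoundedFormula.Realize L ℕ S α n ψ v xs} := by
      ext S
      simp only [mem_union, mem_compl_iff]
      exact imp_iff_not_or
    rw [this]
    exact ih.compl.union ih'

theorem uc_closed {n : ℕ} {φ : L.BoundedFormula α n} (h : φ.IsUniversal) (v : α → ℕ)
    (xs : Fin n → ℕ) :
    @IsClosed _ (codeTop L) {S : L.Structure ℕ | @BoundedFormula.Realize L ℕ S α n φ v xs} := by
  let _ := codeTop L
  induction h with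
  | of_isQF h => exact (uc_clopen_qf h v xs).1
  | @all n φ _ ih =>
    have : {S : L.Structure ℕ | @BoundedFormula.Realize L ℕ S α n φ.all v xs} =
        ⋂ x : ℕ, {S : L.Structure ℕ |
          @BoundedFormula.Realize L ℕ S α (n + 1) φ v (Fin.snoc xs x)} := by
      ext S
      simp only [mem_iInter]
      exact Iff.rfl
    rw [this]
    exact isClosed_iInter fun x => ih _

theorem t_UC : S_UC := by
  intro L n φ h v
  exact uc_closed h (fun e => e.elim) v

end Pool.Agent.H566Y
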