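import Pool.Agent.H566X.Main
import Pool.Agent.H566Y.CD
import Pool.Agent.H566Y.FK
import Pool.Agent.H566Y.IK
import Pool.Agent.H566Y.SEM
import Pool.Agent.H566Y.CONV
import Pool.Agent.H566Y.FSG
import Pool.Agent.H566Y.UC
import Pool.Agent.H566Y.Fin

set_option autoImplicit false

namespace Pool.Agent.H566Y

open Set Pool.Agent.H566X

theorem c_SEM : S_SEM := t_SEM t_CD t_FK t_IK main_FSI

end Pool.Agent.H566Y
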