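import Pool.Agent.H566X.Spec

/-! Vaught's conjecture for `F_σ` classes of structures with relations and (possibly infinitely
many) constants, and for first-order theories: the propositions proved by the tasks. -/

set_option autoImplicit false

namespace Pool.Agent.H566Y

open Set Pool.Agent.H566X

variable {a : ℕ → ℕ} {C : Type}

/-- structures with universe `ℕ`: relations and constants indexed by `C` -/
abbrev XC (a : ℕ → ℕ) (C : Type) : Type := RS a ℕ × (C → ℕ)

/-- `e` is an isomorphism -/
def IsoC (x y : XC a C) (e : ℕ ≃ ℕ) : Prop := Iso x.1 y.1 e ∧ ∀ c, e (x.2 c) = y.2 c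

/-- closed under isomorphism -/
def InvC (B : Set (XC a C)) : Prop := ∀ x ∈ B, ∀ y, (∃ e, IsoC x y e) → y ∈ B

/-- countably many isomorphism types -/
def CTC (B : Set (XC a C)) : Prop :=
  ∃ D : Set (XC a C), D.Countable ∧ ∀ x ∈ B, ∃ y ∈ D, ∃ e, IsoC x y e

/-- no perfect family of pairwise non-isomorphic members -/
def FewC (B : Set (XC a C)) : Prop :=
  ¬ ∃ g : (ℕ → Bool) → XC a C, Continuous g ∧ (∀ A, g A ∈ B) ∧
    ∀ A A', (∃ e, IsoC (g A) (g A') e) → A = A'

/-- the elements which are not constants -/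
def rest (x : XC a C) : Set ℕ := (range x.2)ᶜ

/-- the atomic diagram of the constants -/
def Dg (x : XC a C) : ((C × C) ⊕ (Σ i : ℕ, (Fin (a i) → C))) → Bool :=
  Sum.elim (fun p => decide (x.2 p.1 = x.2 p.2)) (fun p => x.1 p.1 (fun k => x.2 (p.2 k)))

/-- CD: few members have countably many diagrams of constants -/
def S_CD : Prop := ∀ (a : ℕ → ℕ) (C : Type) [Countable C] (B : Set (XC a C)), MeasurableSet B →
  FewC B → (Dg '' B).Countable

/-- FK: the members with `k` elements which are not constants -/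
def S_FK : Prop := ∀ (a : ℕ → ℕ) (C : Type) [Countable C] (B : Set (XC a C)), MeasurableSet B →
  FewC B → ∀ k : ℕ, CTC {x | x ∈ B ∧ (rest x).Finite ∧ (rest x).ncard = k}

/-- IK: the members with a given diagram and infinitely many elements which are not constants -/
def S_IK : Prop := S_FSI → ∀ (a : ℕ → ℕ) (C : Type) [Countable C] (B : Set (XC a C))
  (F : ℕ → Set (XC a C)), (∀ k, IsClosed (F k)) → B = ⋃ k, F k → InvC B → FewC B →
  ∀ d, CTC {x | x ∈ B ∧ Dg x = d ∧ (rest x).Infinite}

/-- SEM: the theorem for `F_σ` classes of structures with constants -/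
def S_SEM : Prop := ∀ (a : ℕ → ℕ) (C : Type) [Countable C] (B : Set (XC a C))
  (F : ℕ → Set (XC a C)), (∀ k, IsClosed (F k)) → B = ⋃ k, F k → InvC B → FewC B → CTC B

/-! ### First-order logic -/

open FirstOrder FirstOrder.Language

/-- The topology on the set of `L`-structures with universe `ℕ` generated by the sets of structures
in which a given relation holds, or does not hold, of a given tuple, or in which a given function
has a given value at a given tuple. -/
def codeTop (L : FirstOrder.Language.{0, 0}) : TopologicalSpace (L.Structure ℕ) :=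
  TopologicalSpace.generateFrom
    ({U | ∃ (n : ℕ) (R : L.Relations n) (t : Fin n → ℕ), U = {S | S.RelMap R t}} ∪
     {U | ∃ (n : ℕ) (R : L.Relations n) (t : Fin n → ℕ), U = {S | ¬ S.RelMap R t}} ∪
     {U | ∃ (n : ℕ) (f : L.Functions n) (t : Fin n → ℕ) (b : ℕ), U = {S | S.funMap f t = b}})

/-- a countable union of closed sets -/
def FSig (L : FirstOrder.Language.{0, 0}) (B : Set (L.Structure ℕ)) : Prop :=
  ∃ F : ℕ → Set (L.Structure ℕ), (∀ k, @IsClosed _ (codeTop L) (F k)) ∧ B = ⋃ k, F k

/-- CONV: the dichotomy for `F_σ` classes of `L`-structures, `L` without proper function symbols -/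
def S_CONV : Prop := S_SEM → ∀ (L : FirstOrder.Language.{0, 0}), Countable L.Symbols →
  (∀ n, IsEmpty (L.Functions (n + 1))) → ∀ B : Set (L.Structure ℕ), FSig L B →
  (∀ S ∈ B, ∀ S' : L.Structure ℕ, Nonempty (@FirstOrder.Language.Equiv L ℕ ℕ S S') → S' ∈ B) →
  (∃ g : ℕ → L.Structure ℕ, ∀ S ∈ B, ∃ n, Nonempty (@FirstOrder.Language.Equiv L ℕ ℕ S (g n))) ∨
  (∃ f : (ℕ → Bool) → L.Structure ℕ, (∀ x, f x ∈ B) ∧
    (∀ x y, Nonempty (@FirstOrder.Language.Equiv L ℕ ℕ (f x) (f y)) → x = y) ∧
    (∀ (n : ℕ) (R : L.Relations n) (t : Fin n → ℕ), IsClopen {x | (f x).RelMap R t}) ∧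
    (∀ (n : ℕ) (F : L.Functions n) (t : Fin n → ℕ) (b : ℕ), IsOpen {x | (f x).funMap F t = b}))

/-- UC: the set of structures satisfying a universal formula at given elements is closed -/
def S_UC : Prop := ∀ (L : FirstOrder.Language.{0, 0}) (n : ℕ)
  (φ : L.BoundedFormula Empty n), φ.IsUniversal → ∀ v : Fin n → ℕ,
    @IsClosed _ (codeTop L) {S : L.Structure ℕ | @BoundedFormula.Realize L ℕ S Empty n φ
      (fun e => e.elim) v}

/-- FSG: a theory consisting of universal sentences and finitely many `∃∀` sentences has an `F_σ`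
class of models -/
def S_FSG : Prop := S_UC → ∀ (L : FirstOrder.Language.{0, 0}) (T T' : L.Theory), T'.Finite →
  (∀ φ ∈ T, φ ∈ T' ∨ BoundedFormula.IsUniversal φ) →
  (∀ φ ∈ T', ∃ (m : ℕ) (ψ : L.BoundedFormula Empty m), ψ.IsUniversal ∧ φ = ψ.exs) →
  T' ⊆ T → FSig L {S : L.Structure ℕ | @Theory.Model L ℕ S T}

end Pool.Agent.H566Y
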